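import Pool.Agent.X214.AM.Halve

/-!
# Smooth metrics close to a continuous family of scalar products
-/

set_option autoImplicit false

open scoped Manifold ContDiff Topology Bundle
open Set Filter Bundle

namespace Pool.Agent.X214.AM

variable {E : Type} [NormedAddCommGroup E] [NormedSpace ℝ E] [FiniteDimensional ℝ E]
  {M : Type} [TopologicalSpace M] [ChartedSpace E M] [IsManifold 𝓘(ℝ, E) ∞ M]

/-- The form which is constant in the trivialisation at `x₀`. -/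
noncomputable def locForm (x₀ : M) (β : E →L[ℝ] E →L[ℝ] ℝ) (x : M) :
    TangentSpace 𝓘(ℝ, E) x →L[ℝ] TangentSpace 𝓘(ℝ, E) x →L[ℝ] ℝ :=
  Y331.PH.pull (E := E) β ((trivializationAt E (TangentSpace 𝓘(ℝ, E) : M → Type)
    x₀).continuousLinearMapAt ℝ x)

lemma locForm_apply (x₀ : M) (β : E →L[ℝ] E →L[ℝ] ℝ) (x : M) (v w : TangentSpace 𝓘(ℝ, E) x) :
    locForm x₀ β x v w = β (crd x₀ x v) (crd x₀ x w) := rfl

lemma locForm_smooth (x₀ : M) (β : E →L[ℝ] E →L[ℝ] ℝ) :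
    ContMDiffOn 𝓘(ℝ, E) (𝓘(ℝ, E).prod 𝓘(ℝ, E →L[ℝ] E →L[ℝ] ℝ)) ∞
      (fun x => Bundle.TotalSpace.mk' (E →L[ℝ] E →L[ℝ] ℝ) x (locForm x₀ β x))
      (trivializationAt E (TangentSpace 𝓘(ℝ, E) : M → Type) x₀).baseSet := by
  set e := trivializationAt E (TangentSpace 𝓘(ℝ, E) : M → Type) x₀ with he
  set e' := trivializationAt (E →L[ℝ] E →L[ℝ] ℝ) (fun x : M => TangentSpace 𝓘(ℝ, E) x →L[ℝ]
    TangentSpace 𝓘(ℝ, E) x →L[ℝ] ℝ) x₀ with he'
  have hb : e'.baseSet = e.baseSet := by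
    simp [he', he]
  rw [← hb]
  refine (Bundle.Trivialization.contMDiffOn_section_baseSet_iff (IB := 𝓘(ℝ, E)) (n := ∞)
    (F := E →L[ℝ] E →L[ℝ] ℝ) (E := fun x : M => TangentSpace 𝓘(ℝ, E) x →L[ℝ]
    TangentSpace 𝓘(ℝ, E) x →L[ℝ] ℝ) (s := locForm x₀ β) e').2 ?_
  refine (contMDiffOn_const (c := β)).congr fun x hx => ?_
  rw [hb] at hx
  rw [he', hom_trivializationAt_apply]
  ext v w
  have h1 : ∀ u : E, e.continuousLinearMapAt ℝ x (e.symmL ℝ x u) = u := fun u =>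
    e.continuousLinearMapAt_symmL (R := ℝ) hx u
  simp only [ContinuousLinearMap.inCoordinates, ContinuousLinearMap.comp_apply]
  have hx2 : x ∈ (trivializationAt (E →L[ℝ] ℝ) (fun x : M => TangentSpace 𝓘(ℝ, E) x →L[ℝ] ℝ)
      x₀).baseSet := by
    simpa [he] using hx
  rw [Bundle.Trivialization.continuousLinearMapAt_apply, Bundle.Trivialization.linearMapAt_apply,
    if_pos hx2, hom_trivializationAt_apply]
  simp only [ContinuousLinearMap.inCoordinates, ContinuousLinearMap.comp_apply]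
  have h2 : ∀ (y : ℝ), (Bundle.Trivialization.continuousLinearMapAt ℝ (trivializationAt ℝ
      (fun _ : M => ℝ) x₀) x) y = y := fun y => by
    simp
  refine (h2 _).trans ?_
  rw [locForm_apply]
  unfold crd
  rw [h1, h1]

lemma locForm_pos {x₀ : M} {β : E →L[ℝ] E →L[ℝ] ℝ} (hβ : ∀ v, v ≠ 0 → 0 < β v v) {x : M}
    (hx : x ∈ (trivializationAt E (TangentSpace 𝓘(ℝ, E) : M → Type) x₀).baseSet)
    (v : TangentSpace 𝓘(ℝ, E) x) (hv : v ≠ 0) : 0 < locForm x₀ β x v v := by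
  rw [locForm_apply]
  apply hβ
  intro h0
  apply hv
  have h1 := (trivializationAt E (TangentSpace 𝓘(ℝ, E) : M → Type)
    x₀).symmL_continuousLinearMapAt (R := ℝ) hx v
  have h2 : (trivializationAt E (TangentSpace 𝓘(ℝ, E) : M → Type)
    x₀).continuousLinearMapAt ℝ x v = 0 := h0
  rw [h2, map_zero] at h1
  exact h1.symm

variable {Λ : Set M} {F : ∀ x : M, Submodule ℝ (TangentSpace 𝓘(ℝ, E) x)}
variable (g : ContMDiffRiemannianMetric 𝓘(ℝ, E) ∞ E (TangentSpace 𝓘(ℝ, E) : M → Type))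

include g in
/-- A form on the model space which at `x₀` extends a given scalar product on `F x₀`. -/
lemma exists_beta {A : Fam Λ F} (hA : ∀ x, PD (A x)) (x₀ : Λ) :
    ∃ β : E →L[ℝ] E →L[ℝ] ℝ, (∀ v w, β v w = β w v) ∧ (∀ v, v ≠ 0 → 0 < β v v) ∧
      ∀ v : F x₀, β (crd (x₀ : M) x₀ v) (crd (x₀ : M) x₀ v) = A x₀ v v := by
  set e := trivializationAt E (TangentSpace 𝓘(ℝ, E) : M → Type) (x₀ : M) with he
  have hb : (x₀ : M) ∈ e.baseSet := FiberBundle.mem_baseSet_trivializationAt' _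
  obtain ⟨G, hG⟩ := (F x₀).exists_isCompl
  let pr : TangentSpace 𝓘(ℝ, E) (x₀ : M) →ₗ[ℝ] F x₀ := (F x₀).linearProjOfIsCompl G hG
  have hpr : ∀ v : F x₀, pr (v : TangentSpace 𝓘(ℝ, E) (x₀ : M)) = v := fun v =>
    Submodule.linearProjOfIsCompl_apply_left hG v
  let S : E →ₗ[ℝ] TangentSpace 𝓘(ℝ, E) (x₀ : M) := (e.symmL ℝ (x₀ : M)).toLinearMap
  have hS : ∀ v : TangentSpace 𝓘(ℝ, E) (x₀ : M), S (crd (x₀ : M) x₀ v) = v := fun v =>
    e.symmL_continuousLinearMapAt (R := ℝ) hb v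
  have hSinj : ∀ a : E, S a = 0 → a = 0 := by
    intro a ha
    have h1 := e.continuousLinearMapAt_symmL (R := ℝ) hb a
    have h2 : e.symmL ℝ (x₀ : M) a = 0 := ha
    rw [h2, map_zero] at h1
    exact h1.symm
  let gb : LinearMap.BilinForm ℝ (TangentSpace 𝓘(ℝ, E) (x₀ : M)) :=
    LinearMap.mk₂ ℝ (fun v w => g.inner (x₀ : M) v w)
      (fun u v w => by simp) (fun c v w => by simp) (fun u v w => by simp) (fun c v w => by simp)
  let B0 : LinearMap.BilinForm ℝ (TangentSpace 𝓘(ℝ, E) (x₀ : M)) :=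
    (A x₀).compl₁₂ pr pr + gb.compl₁₂ (LinearMap.id - (F x₀).subtype ∘ₗ pr)
      (LinearMap.id - (F x₀).subtype ∘ₗ pr)
  have hB0 : ∀ v w, B0 v w = A x₀ (pr v) (pr w) +
      g.inner (x₀ : M) (v - (pr v : TangentSpace 𝓘(ℝ, E) (x₀ : M)))
        (w - (pr w : TangentSpace 𝓘(ℝ, E) (x₀ : M))) := fun v w => rfl
  have hgnn : ∀ v : TangentSpace 𝓘(ℝ, E) (x₀ : M), 0 ≤ g.inner (x₀ : M) v v := by
    intro v
    by_cases h : v = 0
    · rw [h]; simp
    · exact (g.pos _ _ h).le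
  have hAnn : ∀ v : F x₀, 0 ≤ A x₀ v v := by
    intro v
    by_cases h : v = 0
    · rw [h]; simp
    · exact ((hA x₀).2 _ h).le
  let B1 : E →ₗ[ℝ] E →ₗ[ℝ] ℝ := B0.compl₁₂ S S
  let β : E →L[ℝ] E →L[ℝ] ℝ :=
    LinearMap.toContinuousLinearMap ((LinearMap.toContinuousLinearMap (𝕜 := ℝ) (E := E)
      (F' := ℝ)).toLinearMap ∘ₗ B1)
  have hβ : ∀ a b : E, β a b = B0 (S a) (S b) := fun a b => rfl
  refine ⟨β, fun a b => ?_, fun a ha => ?_, fun v => ?_⟩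
  · rw [hβ, hβ, hB0, hB0, (hA x₀).1, g.symm]
  · rw [hβ, hB0]
    by_cases h : pr (S a) = 0
    · have h1 : S a - (pr (S a) : TangentSpace 𝓘(ℝ, E) (x₀ : M)) ≠ 0 := by
        rw [h]
        intro h2
        apply ha
        apply hSinj
        simpa using h2
      have := g.pos _ _ h1
      have := hAnn (pr (S a))
      linarith
    · have := (hA x₀).2 _ h
      have := hgnn (S a - (pr (S a) : TangentSpace 𝓘(ℝ, E) (x₀ : M)))
      linarith
  · rw [hβ, hB0, hS, hpr]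
    simp

include g in
/-- Near a point of `Λ` the local form is close to the given family on `F`. -/
lemma locForm_close (hF : IsClosed (tot Λ F)) {A : Fam Λ F} (hA : ∀ x, PD (A x)) (hAc : Cts A)
    {ε : ℝ} (hε : 0 < ε) (x₀ : Λ) {β : E →L[ℝ] E →L[ℝ] ℝ}
    (hβ : ∀ v : F x₀, β (crd (x₀ : M) x₀ v) (crd (x₀ : M) x₀ v) = A x₀ v v) :
    ∀ᶠ y : Λ in 𝓝 x₀, ∀ v : F y, (1 - ε) * A y v v ≤ locForm (x₀ : M) β y v v ∧
      locForm (x₀ : M) β y v v ≤ (1 + ε) * A y v v := by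
  classical
  by_contra hcon
  have hfreq : ∃ᶠ y : Λ in 𝓝 x₀, ∃ v : F y, A y v v = 1 ∧
      ¬ ((1 - ε) ≤ locForm (x₀ : M) β y v v ∧ locForm (x₀ : M) β y v v ≤ (1 + ε)) := by
    rw [not_eventually] at hcon
    refine hcon.mono fun y hy => ?_
    push Not at hy
    obtain ⟨v, hv⟩ := hy
    have hv0 : v ≠ 0 := by
      rintro rfl
      have := hv (by simp)
      simp at this
    have hpos := (hA y).2 v hv0
    have hs : √(A y v v) * √(A y v v) = A y v v := Real.mul_self_sqrt hpos.le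
    have hs0 : √(A y v v) ≠ 0 := (Real.sqrt_pos.2 hpos).ne'
    refine ⟨(√(A y v v))⁻¹ • v, ?_, ?_⟩
    · simp only [map_smul, LinearMap.smul_apply, smul_eq_mul]
      rw [← mul_assoc, ← mul_inv, hs, inv_mul_cancel₀ hpos.ne']
    · have h3 : locForm (x₀ : M) β y (((√(A y v v))⁻¹ • v : F y) : TangentSpace 𝓘(ℝ, E) (y : M))
          (((√(A y v v))⁻¹ • v : F y) : TangentSpace 𝓘(ℝ, E) (y : M)) =
          (A y v v)⁻¹ * locForm (x₀ : M) β y v v := by
        simp only [Submodule.coe_smul, map_smul, ContinuousLinearMap.smul_apply, smul_eq_mul]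
        rw [← mul_assoc, ← mul_inv, hs]
      rw [h3]
      rintro ⟨h4, h5⟩
      have h6 : (1 - ε) * A y v v ≤ locForm (x₀ : M) β y v v := by
        calc (1 - ε) * A y v v ≤ ((A y v v)⁻¹ * locForm (x₀ : M) β y v v) * A y v v := by gcongr
          _ = _ := by field_simp
      have h7 : locForm (x₀ : M) β y v v ≤ (1 + ε) * A y v v := by
        calc locForm (x₀ : M) β y v v = ((A y v v)⁻¹ * locForm (x₀ : M) β y v v) * A y v v := by
              field_simp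
          _ ≤ _ := by gcongr
      exact absurd h7 (not_le.2 (hv h6))
  set bad : Λ → Prop := fun y => ∃ v : F y, A y v v = 1 ∧
      ¬ ((1 - ε) ≤ locForm (x₀ : M) β y v v ∧ locForm (x₀ : M) β y v v ≤ (1 + ε)) with hbad
  have hne : (𝓝 x₀ ⊓ 𝓟 {y | bad y}).NeBot := Filter.frequently_iff_neBot.1 hfreq
  let u : Ultrafilter Λ := Ultrafilter.of (𝓝 x₀ ⊓ 𝓟 {y | bad y})
  have hu : (u : Filter Λ) ≤ 𝓝 x₀ ⊓ 𝓟 {y | bad y} := Ultrafilter.of_le _
  have hu1 : (u : Filter Λ) ≤ 𝓝 x₀ := hu.trans inf_le_left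
  have hu2 : ∀ᶠ y in (u : Filter Λ), bad y := le_principal_iff.1 (hu.trans inf_le_right)
  let v : ∀ y : Λ, F y := fun y => if h : bad y then h.choose else 0
  have hv : ∀ y, bad y → A y (v y) (v y) = 1 ∧ ¬ ((1 - ε) ≤ locForm (x₀ : M) β y (v y) (v y) ∧
      locForm (x₀ : M) β y (v y) (v y) ≤ (1 + ε)) := by
    intro y hy
    simp only [v, dif_pos hy]
    exact hy.choose_spec
  have hx : Tendsto (fun i : Λ => (i : M)) u (𝓝 (x₀ : M)) :=
    (continuous_subtype_val.tendsto x₀).mono_left hu1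
  have h1 : ∀ᶠ i in (u : Filter Λ), A i (v i) (v i) = 1 := hu2.mono fun i hi => (hv i hi).1
  obtain ⟨v0, hv0⟩ := exists_lim_fam g hF hA hAc (x := fun i => i) (v := v) hx h1
  have h2 := hAc u (fun i => i) v v x₀ v0 v0 hv0 hv0
  have h3 : A x₀ v0 v0 = 1 :=
    tendsto_nhds_unique h2 (tendsto_const_nhds.congr' (h1.mono fun i hi => hi.symm))
  have h4 := (lim_iff.1 hv0).2
  have h5 : Tendsto (fun i : Λ => locForm (x₀ : M) β (i : M) (v i) (v i)) u (𝓝 1) := by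
    rw [← h3, ← hβ v0]
    exact (isBoundedBilinearMap_apply (𝕜 := ℝ) (E := E) (F := ℝ)).continuous.tendsto
      (β (crd (x₀ : M) x₀ v0), crd (x₀ : M) x₀ v0) |>.comp
      (((β.continuous.tendsto _).comp h4).prodMk_nhds h4)
  have h6 := h5.eventually (isOpen_Ioo.mem_nhds (show (1 : ℝ) ∈ Ioo (1 - ε) (1 + ε) from
    ⟨by linarith, by linarith⟩))
  obtain ⟨i, hi, hi2⟩ := (h6.and hu2).exists
  exact (hv i hi2).2 ⟨hi.1.le, hi.2.le⟩

include g in
/-- **Smoothing.** -/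
theorem exists_smooth [T2Space M] [SigmaCompactSpace M] (hΛ : IsClosed Λ)
    (hF : IsClosed (tot Λ F)) {A : Fam Λ F} (hA : ∀ x, PD (A x)) (hAc : Cts A)
    {ε : ℝ} (hε : 0 < ε) :
    ∃ g' : ContMDiffRiemannianMetric 𝓘(ℝ, E) ∞ E (TangentSpace 𝓘(ℝ, E) : M → Type),
      ∀ (x : Λ) (v : F x), (1 - ε) * A x v v ≤ res Λ F g' x v v ∧
        res Λ F g' x v v ≤ (1 + ε) * A x v v := by
  let t : ∀ x : M, Set (TangentSpace 𝓘(ℝ, E) x →L[ℝ] TangentSpace 𝓘(ℝ, E) x →L[ℝ] ℝ) := fun x =>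
    {h | (∀ v w, h v w = h w v) ∧ (∀ v, v ≠ 0 → 0 < h v v) ∧
      ∀ (hx : x ∈ Λ) (v : F x), (1 - ε) * A ⟨x, hx⟩ v v ≤ h v v ∧ h v v ≤ (1 + ε) * A ⟨x, hx⟩ v v}
  have hconv : ∀ x, Convex ℝ (t x) := by
    rintro x p ⟨h1, h2, h3⟩ q ⟨h1', h2', h3'⟩ a b ha hb hab
    refine ⟨fun v w => ?_, fun v hv => ?_, fun hx v => ?_⟩
    · simp only [add_apply, smul_apply]
      rw [h1 v w, h1' v w]
    · simp only [add_apply, smul_apply, smul_eq_mul]
      have p1 := h2 v hv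
      have p2 := h2' v hv
      rcases ha.eq_or_lt with rfl | ha'
      · have : b = 1 := by linarith
        rw [this]
        linarith
      · have := mul_pos ha' p1
        have := mul_nonneg hb p2.le
        linarith
    · simp only [add_apply, smul_apply, smul_eq_mul]
      obtain ⟨l1, u1⟩ := h3 hx v
      obtain ⟨l2, u2⟩ := h3' hx v
      have hb' : b = 1 - a := by linarith
      constructor
      · have q1 := mul_le_mul_of_nonneg_left l1 ha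
        have q2 := mul_le_mul_of_nonneg_left l2 hb
        have : (1 - ε) * A ⟨x, hx⟩ v v = a * ((1 - ε) * A ⟨x, hx⟩ v v) +
            b * ((1 - ε) * A ⟨x, hx⟩ v v) := by rw [hb']; ring
        linarith
      · have q1 := mul_le_mul_of_nonneg_left u1 ha
        have q2 := mul_le_mul_of_nonneg_left u2 hb
        have : (1 + ε) * A ⟨x, hx⟩ v v = a * ((1 + ε) * A ⟨x, hx⟩ v v) +
            b * ((1 + ε) * A ⟨x, hx⟩ v v) := by rw [hb']; ring
        linarith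
  have hloc : ∀ x₀ : M, ∃ U ∈ 𝓝 x₀, ∃ (s_loc : (x : M) → (TangentSpace 𝓘(ℝ, E) x →L[ℝ]
      TangentSpace 𝓘(ℝ, E) x →L[ℝ] ℝ)),
      (ContMDiffOn 𝓘(ℝ, E) (𝓘(ℝ, E).prod 𝓘(ℝ, E →L[ℝ] E →L[ℝ] ℝ)) ∞
        (fun x => Bundle.TotalSpace.mk' (E →L[ℝ] E →L[ℝ] ℝ) x (s_loc x)) U) ∧
        ∀ y ∈ U, s_loc y ∈ t y := by
    intro x₀
    by_cases hx : x₀ ∈ Λ
    · obtain ⟨β, hβ1, hβ2, hβ3⟩ := exists_beta g hA ⟨x₀, hx⟩
      have hcl := locForm_close g hF hA hAc hε ⟨x₀, hx⟩ hβ3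
      have hb : x₀ ∈ (trivializationAt E (TangentSpace 𝓘(ℝ, E) : M → Type) x₀).baseSet :=
        FiberBundle.mem_baseSet_trivializationAt' _
      rw [nhds_subtype_eq_comap, eventually_comap] at hcl
      refine ⟨_, inter_mem ((trivializationAt E (TangentSpace 𝓘(ℝ, E) : M → Type)
        x₀).open_baseSet.mem_nhds hb) hcl, locForm x₀ β,
        (locForm_smooth x₀ β).mono inter_subset_left, ?_⟩
      rintro y ⟨hy1, hy2⟩
      refine ⟨fun v w => ?_, fun v hv => locForm_pos hβ2 hy1 v hv, fun hy v => ?_⟩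
      · rw [locForm_apply, locForm_apply, hβ1]
      · exact hy2 ⟨y, hy⟩ rfl v
    · refine ⟨Λᶜ, hΛ.isOpen_compl.mem_nhds hx, fun x => g.inner x, g.contMDiff.contMDiffOn,
        fun y hy => ⟨fun v w => g.symm _ _ _, fun v hv => g.pos _ _ hv, fun hy' => absurd hy' hy⟩⟩
  obtain ⟨s, hs⟩ := exists_contMDiffSection_forall_mem_convex_of_local (n := ⊤) 𝓘(ℝ, E)
    (F_fiber := E →L[ℝ] E →L[ℝ] ℝ)
    (fun x : M => TangentSpace 𝓘(ℝ, E) x →L[ℝ] TangentSpace 𝓘(ℝ, E) x →L[ℝ] ℝ) t hconv hloc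
  exact ⟨⟨fun x => s x, fun x => (hs x).1, fun x => (hs x).2.1,
    fun x => Y331.PH.isVonNBounded_aux (E := E) (s x) (hs x).2.1, s.contMDiff⟩,
    fun x v => (hs x).2.2 x.2 v⟩

end Pool.Agent.X214.AM
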