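import Mathlib

/-!
# Partially hyperbolic sets and volume expansion: the definitions
-/

set_option autoImplicit false

open scoped Manifold ContDiff Topology Bundle
open Set Filter Bundle

namespace Pool.Agent.X214.AM

variable {E : Type} [NormedAddCommGroup E] [NormedSpace ℝ E]
  {M : Type} [TopologicalSpace M] [ChartedSpace E M] [IsManifold 𝓘(ℝ, E) ∞ M]

/-- The smooth Riemannian metrics on `M`. -/
abbrev RMetric (E M : Type) [NormedAddCommGroup E] [NormedSpace ℝ E] [TopologicalSpace M]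
    [ChartedSpace E M] [IsManifold 𝓘(ℝ, E) ∞ M] : Type :=
  ContMDiffRiemannianMetric 𝓘(ℝ, E) ∞ E (TangentSpace 𝓘(ℝ, E) : M → Type)

/-- The length of a tangent vector. -/
noncomputable def len (g : RMetric E M) (x : M) (v : TangentSpace 𝓘(ℝ, E) x) : ℝ :=
  √(g.inner x v v)

/-- The norm of `v 0 ∧ ... ∧ v (k - 1)` induced by the metric `g`: the square root of the Gram
determinant. -/
noncomputable def vol (g : RMetric E M) (x : M) {k : ℕ} (v : Fin k → TangentSpace 𝓘(ℝ, E) x) : ℝ :=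
  √(Matrix.of fun i j => g.inner x (v i) (v j)).det

/-- The derivative at `x` of the `n`-th iterate of `f`. -/
noncomputable def D (f : M → M) (n : ℕ) (x : M) :
    TangentSpace 𝓘(ℝ, E) x →L[ℝ] TangentSpace 𝓘(ℝ, E) (f^[n] x) :=
  mfderiv 𝓘(ℝ, E) 𝓘(ℝ, E) f^[n] x

/-- A continuous subbundle of constant rank `r` of the restriction of the tangent bundle to `Λ`:
the subspaces over `Λ` have dimension `r` and their union is closed in the tangent bundle. -/
structure IsSubbundle (Λ : Set M) (F : ∀ x : M, Submodule ℝ (TangentSpace 𝓘(ℝ, E) x)) (r : ℕ) :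
    Prop where
  rank : ∀ x ∈ Λ, Module.finrank ℝ (F x) = r
  closed : IsClosed {p : TangentBundle 𝓘(ℝ, E) M | p.1 ∈ Λ ∧ p.2 ∈ F p.1}

/-- A partially hyperbolic splitting `G ⊕ F` over `Λ` with `G` uniformly contracted. -/
structure PartHyp (g : RMetric E M) (f : M → M) (Λ : Set M)
    (G F : ∀ x : M, Submodule ℝ (TangentSpace 𝓘(ℝ, E) x)) : Prop where
  subG : ∃ r, IsSubbundle Λ G r
  subF : ∃ r, IsSubbundle Λ F r
  compl : ∀ x ∈ Λ, IsCompl (G x) (F x)
  invG : ∀ x ∈ Λ, (G x).map (mfderiv 𝓘(ℝ, E) 𝓘(ℝ, E) f x).toLinearMap = G (f x)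
  invF : ∀ x ∈ Λ, (F x).map (mfderiv 𝓘(ℝ, E) 𝓘(ℝ, E) f x).toLinearMap = F (f x)
  rates : ∃ K μ : ℝ, 0 < K ∧ 0 < μ ∧ μ < 1 ∧ ∀ x ∈ Λ, ∀ n : ℕ, ∀ v ∈ G x,
    len g _ (D f n x v) ≤ K * μ ^ n * len g x v ∧
    ∀ w ∈ F x, len g _ (D f n x v) * len g x w ≤ K * μ ^ n * len g x v * len g _ (D f n x w)

/-- The `k`-dimensional volumes in `F` are expanded at the rate `C * exp (a * n)` in the metric
`g`. -/
def VolExp (g : RMetric E M) (f : M → M) (Λ : Set M)
    (F : ∀ x : M, Submodule ℝ (TangentSpace 𝓘(ℝ, E) x)) (k : ℕ) (C a : ℝ) : Prop :=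
  ∀ x ∈ Λ, ∀ n : ℕ, 1 ≤ n → ∀ v : Fin k → TangentSpace 𝓘(ℝ, E) x, (∀ i, v i ∈ F x) →
    C * Real.exp (a * n) * vol g x v ≤ vol g (f^[n] x) fun i => D f n x (v i)

end Pool.Agent.X214.AM
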