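import Pool.Agent.X214.AM.Top

/-!
# Continuous families of scalar products on a subbundle over a compact set
-/

set_option autoImplicit false

open scoped Manifold ContDiff Topology Bundle
open Set Filter Bundle

namespace Pool.Agent.X214.AM

variable {E : Type} [NormedAddCommGroup E] [NormedSpace ℝ E] [FiniteDimensional ℝ E]
  {M : Type} [TopologicalSpace M] [ChartedSpace E M] [IsManifold 𝓘(ℝ, E) ∞ M]

instance finTangent (x : M) : FiniteDimensional ℝ (TangentSpace 𝓘(ℝ, E) x) :=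
  inferInstanceAs (FiniteDimensional ℝ E)

/-- A family of bilinear forms on the fibres of `F` over `Λ`. -/
abbrev Fam (Λ : Set M) (F : ∀ x : M, Submodule ℝ (TangentSpace 𝓘(ℝ, E) x)) : Type :=
  ∀ x : Λ, LinearMap.BilinForm ℝ (F x)

variable {Λ : Set M} {F : ∀ x : M, Submodule ℝ (TangentSpace 𝓘(ℝ, E) x)}

/-- Continuity of a family of forms. -/
def Cts (h : Fam Λ F) : Prop :=
  ∀ (u : Ultrafilter Λ) (x : Λ → Λ) (v w : ∀ i, F (x i)) (x0 : Λ) (v0 w0 : F x0),
    Lim (u : Filter Λ) (fun i => (x i : M)) (fun i => (v i : TangentSpace 𝓘(ℝ, E) (x i : M))) x0 v0 →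
    Lim (u : Filter Λ) (fun i => (x i : M)) (fun i => (w i : TangentSpace 𝓘(ℝ, E) (x i : M))) x0 w0 →
    Tendsto (fun i => h (x i) (v i) (w i)) u (𝓝 (h x0 v0 w0))

/-- The restriction of a Riemannian metric to `F`. -/
noncomputable def res (Λ : Set M) (F : ∀ x : M, Submodule ℝ (TangentSpace 𝓘(ℝ, E) x))
    (g : ContMDiffRiemannianMetric 𝓘(ℝ, E) ∞ E (TangentSpace 𝓘(ℝ, E) : M → Type)) : Fam Λ F :=
  fun x => LinearMap.mk₂ ℝ (fun v w : F x => g.inner (x : M) (v : TangentSpace 𝓘(ℝ, E) (x : M)) w)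
    (fun u v w => by simp) (fun c v w => by simp) (fun u v w => by simp) (fun c v w => by simp)

variable (g : ContMDiffRiemannianMetric 𝓘(ℝ, E) ∞ E (TangentSpace 𝓘(ℝ, E) : M → Type))

lemma res_apply (x : Λ) (v w : F x) :
    res Λ F g x v w = g.inner (x : M) (v : TangentSpace 𝓘(ℝ, E) (x : M)) w := rfl

lemma res_pd (x : Λ) : PD (res Λ F g x) := by
  refine ⟨fun v w => g.symm _ _ _, fun v hv => g.pos _ _ ?_⟩
  intro h
  exact hv (Subtype.ext h)

lemma res_cts : Cts (res Λ F g) := fun _ _ _ _ _ _ _ hv hw => tendsto_inner g hv hw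

/-- The total space of `F` over `Λ`. -/
def tot (Λ : Set M) (F : ∀ x : M, Submodule ℝ (TangentSpace 𝓘(ℝ, E) x)) :
    Set (TangentBundle 𝓘(ℝ, E) M) := {p | p.1 ∈ Λ ∧ p.2 ∈ F p.1}

include g in
/-- Vectors of `F` of length one for a continuous family of scalar products converge along
ultrafilters. -/
lemma exists_lim_fam (hF : IsClosed (tot Λ F)) {A : Fam Λ F} (hA : ∀ x, PD (A x)) (hc : Cts A)
    {u : Ultrafilter Λ} {x : Λ → Λ} {v : ∀ i, F (x i)} {x0 : Λ}
    (hx : Tendsto (fun i => (x i : M)) u (𝓝 (x0 : M)))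
    (h1 : ∀ᶠ i in (u : Filter Λ), A (x i) (v i) (v i) = 1) :
    ∃ v0 : F x0, Lim (u : Filter Λ) (fun i => (x i : M))
      (fun i => (v i : TangentSpace 𝓘(ℝ, E) (x i : M))) x0 v0 := by
  have hmem : ∀ (w : ∀ i, F (x i)) (w0 : TangentSpace 𝓘(ℝ, E) (x0 : M)),
      Lim (u : Filter Λ) (fun i => (x i : M)) (fun i => (w i : TangentSpace 𝓘(ℝ, E) (x i : M)))
        x0 w0 → w0 ∈ F x0 := by
    intro w w0 hw
    have := hF.mem_of_tendsto hw (Eventually.of_forall fun i => ⟨(x i).2, (w i).2⟩)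
    exact this.2
  by_cases hR : ∃ R : ℝ, ∀ᶠ i in (u : Filter Λ), res Λ F g (x i) (v i) (v i) ≤ R
  · obtain ⟨R, hR⟩ := hR
    obtain ⟨v0, hv0⟩ := exists_lim g (v := fun i => (v i : TangentSpace 𝓘(ℝ, E) (x i : M))) hx hR
    exact ⟨⟨v0, hmem v v0 hv0⟩, hv0⟩
  · exfalso
    push Not at hR
    have hR' : ∀ R : ℝ, ∀ᶠ i in (u : Filter Λ), R < res Λ F g (x i) (v i) (v i) := hR
    set s : Λ → ℝ := fun i => res Λ F g (x i) (v i) (v i) with hs
    have hsinf : Tendsto s u atTop := tendsto_atTop.2 fun R => by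
      filter_upwards [hR' R] with i hi
      exact hi.le
    let w : ∀ i, F (x i) := fun i => (√(s i))⁻¹ • v i
    have hw1 : ∀ᶠ i in (u : Filter Λ), res Λ F g (x i) (w i) (w i) = 1 := by
      filter_upwards [hR' 0] with i hi
      have h3 : √(s i) * √(s i) = s i := Real.mul_self_sqrt hi.le
      have h4 : s i ≠ 0 := hi.ne'
      calc res Λ F g (x i) (w i) (w i) = (√(s i))⁻¹ * ((√(s i))⁻¹ * s i) := by
            simp only [w, map_smul, LinearMap.smul_apply, smul_eq_mul]
            rfl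
        _ = (√(s i) * √(s i))⁻¹ * s i := by
            rw [mul_inv]
            ring
        _ = 1 := by rw [h3, inv_mul_cancel₀ h4]
    obtain ⟨w0, hw0⟩ := exists_lim g (v := fun i => (w i : TangentSpace 𝓘(ℝ, E) (x i : M))) hx
      (hw1.mono fun i hi => hi.le)
    have hw0F := hmem w w0 hw0
    have h5 := res_cts g u x w w x0 ⟨w0, hw0F⟩ ⟨w0, hw0F⟩ hw0 hw0
    have h6 : res Λ F g x0 ⟨w0, hw0F⟩ ⟨w0, hw0F⟩ = 1 :=
      tendsto_nhds_unique h5 (tendsto_const_nhds.congr' (hw1.mono fun i hi => hi.symm))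
    have h7 := hc u x w w x0 ⟨w0, hw0F⟩ ⟨w0, hw0F⟩ hw0 hw0
    have h8 : Tendsto (fun i => A (x i) (w i) (w i)) u (𝓝 0) := by
      refine (tendsto_inv_atTop_zero.comp hsinf).congr' ?_
      filter_upwards [h1, hR' 0] with i hi hi0
      have h3 : √(s i) * √(s i) = s i := Real.mul_self_sqrt hi0.le
      simp only [w, map_smul, LinearMap.smul_apply, smul_eq_mul, hi, mul_one, Function.comp_apply]
      rw [← mul_inv, h3]
    have h9 : A x0 ⟨w0, hw0F⟩ ⟨w0, hw0F⟩ = 0 := tendsto_nhds_unique h7 h8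
    have h10 : (⟨w0, hw0F⟩ : F x0) = 0 := by
      by_contra h
      exact ((hA x0).2 _ h).ne' h9
    rw [h10] at h6
    simp at h6

include g in
/-- The mean of two continuous families is continuous. -/
theorem cts_mean {r : ℕ} (hF : IsClosed (tot Λ F)) (hr : ∀ x : Λ, Module.finrank ℝ (F x) = r)
    {A B X : Fam Λ F} (hA : ∀ x, PD (A x))
    (hB : ∀ x, PD (B x)) (hAc : Cts A) (hBc : Cts B)
    (hX : ∀ x, IsMean r (A x) (B x) (X x)) : Cts X := by
  intro u x v w x0 v0 w0 hv hw
  have hX' := hX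
  choose e b hb hAe hBe hXe using hX
  have hx : Tendsto (fun i => (x i : M)) u (𝓝 (x0 : M)) := (lim_iff.1 hv).1
  have hq : ∀ j : Fin r, ∃ q : F x0, Lim (u : Filter Λ) (fun i => (x i : M))
      (fun i => (e (x i) j : TangentSpace 𝓘(ℝ, E) (x i : M))) x0 q := fun j =>
    exists_lim_fam g hF hA hAc (v := fun i => e (x i) j) hx
      (Eventually.of_forall fun i => by rw [hAe, if_pos rfl])
  choose q hq using hq
  have hAq : ∀ i j, A x0 (q i) (q j) = if i = j then 1 else 0 := by
    intro i j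
    have := hAc u x (fun l => e (x l) i) (fun l => e (x l) j) x0 (q i) (q j) (hq i) (hq j)
    simp only [hAe] at this
    exact tendsto_nhds_unique this tendsto_const_nhds
  have hBlim : ∀ i j, Tendsto (fun l => if i = j then b (x l) i else 0) u
      (𝓝 (B x0 (q i) (q j))) := by
    intro i j
    have := hBc u x (fun l => e (x l) i) (fun l => e (x l) j) x0 (q i) (q j) (hq i) (hq j)
    simpa only [hBe] using this
  have hBq : ∀ i j, B x0 (q i) (q j) = if i = j then B x0 (q i) (q i) else 0 := by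
    intro i j
    by_cases h : i = j
    · subst h
      rw [if_pos rfl]
    · rw [if_neg h]
      have := hBlim i j
      simp only [if_neg h] at this
      exact tendsto_nhds_unique this tendsto_const_nhds
  have hblim : ∀ j, Tendsto (fun l => b (x l) j) u (𝓝 (B x0 (q j) (q j))) := by
    intro j
    have := hBlim j j
    simpa using this
  have hqne : ∀ j, q j ≠ 0 := by
    intro j h
    have := hAq j j
    rw [h] at this
    simp at this
  have hli : LinearIndependent ℝ q := by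
    rw [Fintype.linearIndependent_iff]
    intro c hc j
    have h1 : A x0 (∑ i, c i • q i) (q j) = 0 := by rw [hc]; simp
    simpa [hAq] using h1
  let q' : Module.Basis (Fin r) ℝ (F x0) := Module.Basis.mk hli
    (hli.span_eq_top_of_card_eq_finrank' (by rw [hr x0]; simp)).ge
  have hq' : ∀ j, q' j = q j := fun j => by
    simp [q']
  have hXq := (hX' x0).apply_of_diag (e' := q') (b' := fun j => B x0 (q j) (q j))
    (fun j => (hB x0).2 _ (hqne j)) (fun i j => by rw [hq', hq', hAq]) (fun i j => by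
      rw [hq', hq', hBq])
  rw [diag_apply (A := A x0) (e := q') (fun i j => by rw [hq', hq', hAq]) hXq]
  have h2 : ∀ l, X (x l) (v l) (w l) =
      ∑ j, √(b (x l) j) * A (x l) (v l) (e (x l) j) * A (x l) (w l) (e (x l) j) := fun l =>
    diag_apply (hAe (x l)) (hXe (x l)) _ _
  simp only [h2, hq']
  refine tendsto_finsetSum _ fun j _ => ?_
  exact (((Real.continuous_sqrt.tendsto _).comp (hblim j)).mul
    (hAc u x v (fun l => e (x l) j) x0 v0 (q j) hv (hq j))).mul
    (hAc u x w (fun l => e (x l) j) x0 w0 (q j) hw (hq j))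

end Pool.Agent.X214.AM
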