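import Pool.Agent.X214.AM.Fam

/-!
# Halving the number of steps
-/

set_option autoImplicit false

open scoped Manifold ContDiff Topology Bundle
open Set Filter Bundle

namespace Pool.Agent.X214.AM

variable {E : Type} [NormedAddCommGroup E] [NormedSpace ℝ E] [FiniteDimensional ℝ E]
  {M : Type} [TopologicalSpace M] [ChartedSpace E M] [IsManifold 𝓘(ℝ, E) ∞ M]

/-- A continuous bundle map of `F` over a map of `Λ`, invertible in the fibres. -/
structure BMap (Λ : Set M) (F : ∀ x : M, Submodule ℝ (TangentSpace 𝓘(ℝ, E) x)) where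
  /-- the map of the base -/
  σ : Λ → Λ
  /-- the map of the fibres -/
  L : ∀ x : Λ, F x ≃ₗ[ℝ] F (σ x)
  lim : ∀ (u : Ultrafilter Λ) (x : Λ → Λ) (v : ∀ i, F (x i)) (x0 : Λ) (v0 : F x0),
    Lim (u : Filter Λ) (fun i => (x i : M)) (fun i => (v i : TangentSpace 𝓘(ℝ, E) (x i : M))) x0 v0 →
    Lim (u : Filter Λ) (fun i => (σ (x i) : M))
      (fun i => (L (x i) (v i) : TangentSpace 𝓘(ℝ, E) (σ (x i) : M))) (σ x0) (L x0 v0)

variable {Λ : Set M} {F : ∀ x : M, Submodule ℝ (TangentSpace 𝓘(ℝ, E) x)}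

/-- The pull back of a family of forms. -/
noncomputable def pull (φ : BMap Λ F) (A : Fam Λ F) : Fam Λ F := fun x =>
  (A (φ.σ x)).compl₁₂ (φ.L x : F x →ₗ[ℝ] F (φ.σ x)) (φ.L x : F x →ₗ[ℝ] F (φ.σ x))

/-- The square of a bundle map. -/
noncomputable def sqr (φ : BMap Λ F) : BMap Λ F where
  σ := fun x => φ.σ (φ.σ x)
  L := fun x => (φ.L x).trans (φ.L (φ.σ x))
  lim := fun u x v x0 v0 h =>
    φ.lim u (fun i => φ.σ (x i)) (fun i => φ.L (x i) (v i)) (φ.σ x0) (φ.L x0 v0)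
      (φ.lim u x v x0 v0 h)

/-- The `2 ^ m`-th iterate. -/
noncomputable def pw (φ : BMap Λ F) : ℕ → BMap Λ F
  | 0 => φ
  | m + 1 => sqr (pw φ m)

lemma pull_apply (φ : BMap Λ F) (A : Fam Λ F) (x : Λ) (v w : F x) :
    pull φ A x v w = A (φ.σ x) (φ.L x v) (φ.L x w) := rfl

lemma pull_sqr (φ : BMap Λ F) (A : Fam Λ F) : pull (sqr φ) A = pull φ (pull φ A) := rfl

lemma pull_pd {φ : BMap Λ F} {A : Fam Λ F} (hA : ∀ x, PD (A x)) (x : Λ) : PD (pull φ A x) := by
  refine ⟨fun v w => (hA _).1 _ _, fun v hv => (hA _).2 _ ?_⟩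
  intro h
  exact hv ((φ.L x).map_eq_zero_iff.1 h)

lemma pull_cts {φ : BMap Λ F} {A : Fam Λ F} (hA : Cts A) : Cts (pull φ A) := by
  intro u x v w x0 v0 w0 hv hw
  exact hA u (fun i => φ.σ (x i)) (fun i => φ.L (x i) (v i)) (fun i => φ.L (x i) (w i)) (φ.σ x0)
    (φ.L x0 v0) (φ.L x0 w0) (φ.lim u x v x0 v0 hv) (φ.lim u x w x0 w0 hw)

variable (g : ContMDiffRiemannianMetric 𝓘(ℝ, E) ∞ E (TangentSpace 𝓘(ℝ, E) : M → Type))

include g in
/-- **Halving.** If the `2 ^ m`-th iterate expands all `k`-volumes by `c ^ (2 ^ m)` (measured by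
squares), then another continuous family of scalar products is expanded by `c` in one step. -/
theorem halve {r k : ℕ} (hF : IsClosed (tot Λ F)) (hr : ∀ x : Λ, Module.finrank ℝ (F x) = r)
    (φ : BMap Λ F) {c : ℝ} (hc : 0 < c) (m : ℕ) : ∀ (A : Fam Λ F), (∀ x, PD (A x)) → Cts A →
      (∀ (x : Λ) (w : Fin k → F x), c ^ (2 ^ m) * gram (A x) w ≤ gram (pull (pw φ m) A x) w) →
      ∃ A' : Fam Λ F, (∀ x, PD (A' x)) ∧ Cts A' ∧
        ∀ (x : Λ) (w : Fin k → F x), c * gram (A' x) w ≤ gram (pull φ A' x) w := by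
  induction m with
  | zero =>
    intro A hA hAc h
    refine ⟨A, hA, hAc, fun x w => ?_⟩
    have := h x w
    simpa [pw] using this
  | succ m ih =>
    intro A hA hAc h
    set φ' := pw φ m with hφ'
    have hB : ∀ x, PD (pull φ' A x) := pull_pd hA
    have hBc : Cts (pull φ' A) := pull_cts hAc
    have hC : ∀ x, PD (pull φ' (pull φ' A) x) := pull_pd hB
    have hex : ∀ x, ∃ X, IsMean r (A x) (pull φ' A x) X := fun x =>
      exists_mean (hr x) (hA x) (hB x)
    choose A' hA' using hex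
    have hA'c : Cts (A' : Fam Λ F) := cts_mean g hF hr hA hB hAc hBc hA'
    refine ih A' (fun x => (hA' x).pd) hA'c fun x w => ?_
    have hY : IsMean r (pull φ' A x) (pull φ' (pull φ' A) x) (pull φ' A' x) :=
      (hA' (φ'.σ x)).comap (φ'.L x)
    refine key (hr x) (hA' x) hY (hC x) (pow_pos hc _) (fun w => ?_) w
    have := h x w
    rw [pow_succ, pow_mul] at this
    exact this

end Pool.Agent.X214.AM
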