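import Mathlib
import Pool.Agent.H801R3.SB.CB

/-!
# Geometric means of scalar products and volumes of frames
-/

set_option autoImplicit false

namespace Pool.Agent.X214.AM

open Module

variable {W : Type*} [AddCommGroup W] [Module ℝ W]

/-- A scalar product: a symmetric positive definite bilinear form. -/
def PD (A : LinearMap.BilinForm ℝ W) : Prop :=
  (∀ v w, A v w = A w v) ∧ ∀ v, v ≠ 0 → 0 < A v v

/-- The Gram determinant of a `k`-frame. -/
noncomputable def gram (A : LinearMap.BilinForm ℝ W) {k : ℕ} (w : Fin k → W) : ℝ :=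
  (Matrix.of fun i j => A (w i) (w j)).det

/-- Simultaneous diagonalisation. -/
theorem exists_simul [FiniteDimensional ℝ W] {r : ℕ} (hr : finrank ℝ W = r)
    {P Q : LinearMap.BilinForm ℝ W} (hP : PD P) (hQ : ∀ v w, Q v w = Q w v) :
    ∃ (e : Basis (Fin r) ℝ W) (q : Fin r → ℝ), (∀ i j, P (e i) (e j) = if i = j then 1 else 0) ∧
      ∀ i j, Q (e i) (e j) = if i = j then q i else 0 := by
  classical
  letI core : InnerProductSpace.Core ℝ W :=
    { inner := fun v w => P v w
      conj_inner_symm := fun v w => by simpa using hP.1 w v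
      re_inner_nonneg := fun v => by
        by_cases hv : v = 0
        · simp [hv]
        · simpa using (hP.2 v hv).le
      add_left := fun u v w => by simp
      smul_left := fun v w c => by simp
      definite := fun v hv => by
        by_contra h
        exact (hP.2 v h).ne' hv }
  letI : NormedAddCommGroup W := core.toNormedAddCommGroup
  letI : InnerProductSpace ℝ W := InnerProductSpace.ofCore core.toCore
  have hin : ∀ v w : W, inner ℝ v w = P v w := fun v w => rfl
  let o := stdOrthonormalBasis ℝ W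
  let T : W →ₗ[ℝ] W := ∑ j, (Q.flip (o j)).smulRight (o j)
  have hT : ∀ v w, inner ℝ (T v) w = Q v w := by
    intro v w
    have h1 : w = ∑ j, inner ℝ (o j) w • o j := (o.sum_repr' w).symm
    conv_rhs => rw [h1]
    simp only [T, LinearMap.sum_apply, LinearMap.smulRight_apply, LinearMap.flip_apply, sum_inner,
      inner_smul_left, map_sum, map_smul, smul_eq_mul]
    exact Finset.sum_congr rfl fun j _ => by simp [mul_comm]
  have hsym : T.IsSymmetric := by
    intro v w
    rw [hT, real_inner_comm, hT, hQ]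
  let e := hsym.eigenvectorBasis hr
  refine ⟨e.toBasis, hsym.eigenvalues hr, fun i j => ?_, fun i j => ?_⟩
  · rw [← hin, OrthonormalBasis.coe_toBasis]
    exact orthonormal_iff_ite.1 e.orthonormal i j
  · rw [← hT, OrthonormalBasis.coe_toBasis, hsym.apply_eigenvectorBasis hr i, inner_smul_left,
      orthonormal_iff_ite.1 e.orthonormal i j]
    simp

/-- `X` is the geometric mean of the scalar products `A` and `B`: in a basis in which `A` is the
standard scalar product and `B` is diagonal with entries `b i`, the form `X` is diagonal with entries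
`√(b i)`. -/
def IsMean (r : ℕ) (A B X : LinearMap.BilinForm ℝ W) : Prop :=
  ∃ (e : Basis (Fin r) ℝ W) (b : Fin r → ℝ), (∀ i, 0 < b i) ∧
    (∀ i j, A (e i) (e j) = if i = j then 1 else 0) ∧
    (∀ i j, B (e i) (e j) = if i = j then b i else 0) ∧
    (∀ i j, X (e i) (e j) = if i = j then √(b i) else 0)

/-- Expansion in a basis in which `A` is standard. -/
lemma expand {r : ℕ} {A : LinearMap.BilinForm ℝ W} {e : Basis (Fin r) ℝ W}
    (hA : ∀ i j, A (e i) (e j) = if i = j then 1 else 0) (v : W) :
    v = ∑ i, A v (e i) • e i := by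
  have h : ∀ i, A v (e i) = e.repr v i := by
    intro i
    have h1 : A v (e i) = A (∑ j, e.repr v j • e j) (e i) := by rw [e.sum_repr v]
    rw [h1, map_sum, LinearMap.sum_apply, Finset.sum_eq_single i]
    · rw [map_smul, LinearMap.smul_apply, hA, if_pos rfl, smul_eq_mul, mul_one]
    · intro j _ hj
      rw [map_smul, LinearMap.smul_apply, hA, if_neg hj, smul_zero]
    · simp
  simp only [h]
  exact (e.sum_repr v).symm

lemma diag_apply {r : ℕ} {A X : LinearMap.BilinForm ℝ W} {e : Basis (Fin r) ℝ W} {s : Fin r → ℝ}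
    (hA : ∀ i j, A (e i) (e j) = if i = j then 1 else 0)
    (hX : ∀ i j, X (e i) (e j) = if i = j then s i else 0) (v w : W) :
    X v w = ∑ i, s i * A v (e i) * A w (e i) := by
  conv_lhs => rw [expand hA v, expand hA w]
  simp only [map_sum, map_smul, LinearMap.sum_apply, LinearMap.smul_apply, smul_eq_mul, hX,
    mul_ite, mul_zero, Finset.sum_ite_eq', Finset.sum_ite_eq, Finset.mem_univ, if_true]
  exact Finset.sum_congr rfl fun i _ => by ring

lemma PD_of_diag {r : ℕ} {A X : LinearMap.BilinForm ℝ W} {e : Basis (Fin r) ℝ W} {s : Fin r → ℝ}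
    (hA : ∀ i j, A (e i) (e j) = if i = j then 1 else 0)
    (hX : ∀ i j, X (e i) (e j) = if i = j then s i else 0) (hs : ∀ i, 0 < s i) : PD X := by
  refine ⟨fun v w => ?_, fun v hv => ?_⟩
  · rw [diag_apply hA hX, diag_apply hA hX]
    exact Finset.sum_congr rfl fun i _ => by ring
  · rw [diag_apply hA hX]
    have h0 : ∃ i, A v (e i) ≠ 0 := by
      by_contra h
      push Not at h
      apply hv
      rw [expand hA v]
      simp [h]
    obtain ⟨i, hi⟩ := h0
    have : ∀ j ∈ Finset.univ, 0 ≤ s j * A v (e j) * A v (e j) := fun j _ => by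
      have := hs j
      have := mul_nonneg this.le (mul_self_nonneg (A v (e j)))
      nlinarith
    refine Finset.sum_pos' this ⟨i, Finset.mem_univ _, ?_⟩
    have := hs i
    have h2 : 0 < A v (e i) * A v (e i) := mul_self_pos.2 hi
    nlinarith [mul_pos this h2]

/-- The mean is a scalar product. -/
lemma IsMean.pd {r : ℕ} {A B X : LinearMap.BilinForm ℝ W} (h : IsMean r A B X) : PD X := by
  obtain ⟨e, b, hb, hA, -, hX⟩ := h
  exact PD_of_diag hA hX fun i => Real.sqrt_pos.2 (hb i)

/-- Forms with prescribed diagonal matrix. -/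
lemma exists_form {r : ℕ} {A : LinearMap.BilinForm ℝ W} {e : Basis (Fin r) ℝ W}
    (h1 : ∀ i j, A (e i) (e j) = if i = j then 1 else 0) (s : Fin r → ℝ) :
    ∃ X : LinearMap.BilinForm ℝ W, ∀ i j, X (e i) (e j) = if i = j then s i else 0 := by
  refine ⟨∑ i, s i • (A.flip (e i)).smulRight (A.flip (e i)), fun i j => ?_⟩
  simp only [LinearMap.sum_apply, LinearMap.smul_apply, LinearMap.smulRight_apply,
    LinearMap.flip_apply, h1, smul_eq_mul]
  by_cases h : i = j
  · subst h
    rw [Finset.sum_eq_single i]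
    · simp [h1]
    · intro l _ hl
      simp [h1, Ne.symm hl]
    · simp
  · rw [if_neg h]
    refine Finset.sum_eq_zero fun l _ => ?_
    by_cases h3 : i = l
    · subst h3
      simp [h1, Ne.symm h]
    · simp [h1, h3]

/-- The mean exists. -/
theorem exists_mean [FiniteDimensional ℝ W] {r : ℕ} (hr : finrank ℝ W = r)
    {A B : LinearMap.BilinForm ℝ W} (hA : PD A) (hB : PD B) : ∃ X, IsMean r A B X := by
  obtain ⟨e, b, h1, h2⟩ := exists_simul hr hA hB.1
  have hb : ∀ i, 0 < b i := fun i => by
    have := hB.2 (e i) (e.ne_zero i)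
    rwa [h2, if_pos rfl] at this
  obtain ⟨X, hX⟩ := exists_form h1 fun i => √(b i)
  exact ⟨X, e, b, hb, h1, h2, hX⟩

/-- Two bases diagonalising the same pair. -/
lemma sqrt_compat {r : ℕ} {A B : LinearMap.BilinForm ℝ W} {e e' : Basis (Fin r) ℝ W}
    {b b' : Fin r → ℝ} (hs : ∀ v w, A v w = A w v) (hsB : ∀ v w, B v w = B w v)
    (hA : ∀ i j, A (e i) (e j) = if i = j then 1 else 0)
    (hB : ∀ i j, B (e i) (e j) = if i = j then b i else 0)
    (hA' : ∀ i j, A (e' i) (e' j) = if i = j then 1 else 0)
    (hB' : ∀ i j, B (e' i) (e' j) = if i = j then b' i else 0) (i j : Fin r) :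
    √(b i) * A (e i) (e' j) = √(b' j) * A (e i) (e' j) := by
  have h1 : B (e i) (e' j) = b i * A (e i) (e' j) := by
    rw [diag_apply hA hB, Finset.sum_eq_single i]
    · rw [hA, if_pos rfl, mul_one, hs (e' j) (e i)]
    · intro l _ hl
      rw [hA, if_neg (Ne.symm hl)]
      ring
    · simp
  have h2 : B (e i) (e' j) = b' j * A (e i) (e' j) := by
    rw [diag_apply hA' hB', Finset.sum_eq_single j]
    · rw [hA', if_pos rfl, mul_one]
    · intro l _ hl
      rw [hA' j l, if_neg (Ne.symm hl)]
      ring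
    · simp
  by_cases h : A (e i) (e' j) = 0
  · rw [h, mul_zero, mul_zero]
  · have : b i = b' j := by
      rw [h1] at h2
      exact mul_right_cancel₀ h h2
    rw [this]

/-- The mean is unique. -/
theorem IsMean.unique {r : ℕ} {A B X X' : LinearMap.BilinForm ℝ W} (h : IsMean r A B X)
    (h' : IsMean r A B X') : X = X' := by
  obtain ⟨e, b, hb, hA, hB, hX⟩ := h
  obtain ⟨e', b', hb', hA', hB', hX'⟩ := h'
  have hs : ∀ v w, A v w = A w v := (PD_of_diag hA hA fun _ => one_pos).1
  have hsB : ∀ v w, B v w = B w v := (PD_of_diag hA hB hb).1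
  have key := sqrt_compat hs hsB hA hB hA' hB'
  ext v w
  rw [diag_apply hA hX, diag_apply hA' hX']
  have e1 : ∀ i, A w (e i) = ∑ j, A w (e' j) * A (e i) (e' j) := by
    intro i
    conv_lhs => rw [expand hA' w]
    simp only [map_sum, map_smul, LinearMap.sum_apply, LinearMap.smul_apply, smul_eq_mul]
    exact Finset.sum_congr rfl fun j _ => by rw [hs (e i) (e' j)]
  have e2 : ∀ j, A v (e' j) = ∑ i, A v (e i) * A (e i) (e' j) := by
    intro j
    conv_lhs => rw [expand hA v]
    simp only [map_sum, map_smul, LinearMap.sum_apply, LinearMap.smul_apply, smul_eq_mul]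
  calc ∑ i, √(b i) * A v (e i) * A w (e i)
      = ∑ i, ∑ j, √(b i) * A v (e i) * (A w (e' j) * A (e i) (e' j)) := by
        refine Finset.sum_congr rfl fun i _ => ?_
        rw [e1 i, Finset.mul_sum]
    _ = ∑ j, ∑ i, √(b i) * A v (e i) * (A w (e' j) * A (e i) (e' j)) := Finset.sum_comm
    _ = ∑ j, √(b' j) * A v (e' j) * A w (e' j) := by
        refine Finset.sum_congr rfl fun j _ => ?_
        rw [e2 j, Finset.mul_sum, Finset.sum_mul]
        refine Finset.sum_congr rfl fun i _ => ?_
        calc √(b i) * A v (e i) * (A w (e' j) * A (e i) (e' j))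
            = (√(b i) * A (e i) (e' j)) * (A v (e i) * A w (e' j)) := by ring
          _ = (√(b' j) * A (e i) (e' j)) * (A v (e i) * A w (e' j)) := by rw [key i j]
          _ = √(b' j) * (A v (e i) * A (e i) (e' j)) * A w (e' j) := by ring

/-- The mean in any diagonalising basis. -/
theorem IsMean.apply_of_diag {r : ℕ} {A B X : LinearMap.BilinForm ℝ W} (h : IsMean r A B X)
    {e' : Basis (Fin r) ℝ W} {b' : Fin r → ℝ} (hb : ∀ i, 0 < b' i)
    (hA : ∀ i j, A (e' i) (e' j) = if i = j then 1 else 0)
    (hB : ∀ i j, B (e' i) (e' j) = if i = j then b' i else 0) (i j : Fin r) :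
    X (e' i) (e' j) = if i = j then √(b' i) else 0 := by
  obtain ⟨X', hX'⟩ := exists_form hA fun i => √(b' i)
  rw [h.unique ⟨e', b', hb, hA, hB, hX'⟩]
  exact hX' i j

/-- The mean is symmetric. -/
theorem IsMean.symm {r : ℕ} {A B X : LinearMap.BilinForm ℝ W} (h : IsMean r A B X) :
    IsMean r B A X := by
  obtain ⟨e, b, hb, hA, hB, hX⟩ := h
  have hq : ∀ i, √(b i) ≠ 0 := fun i => (Real.sqrt_pos.2 (hb i)).ne'
  have hsq : ∀ i, √(b i) * √(b i) = b i := fun i => Real.mul_self_sqrt (hb i).le
  refine ⟨e.isUnitSMul (w := fun i => (√(b i))⁻¹) fun i => (inv_ne_zero (hq i)).isUnit,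
    fun i => (b i)⁻¹, fun i => inv_pos.2 (hb i), fun i j => ?_, fun i j => ?_, fun i j => ?_⟩
  all_goals simp only [Basis.isUnitSMul_apply, map_smul, LinearMap.smul_apply, smul_eq_mul, hA, hB, hX]
  · by_cases h : i = j
    · subst h
      rw [if_pos rfl, if_pos rfl]
      have := hq i
      field_simp
      rw [pow_two, hsq]
    · rw [if_neg h, if_neg h]
      ring
  · by_cases h : i = j
    · subst h
      rw [if_pos rfl, if_pos rfl, mul_one, ← mul_inv, hsq]
    · rw [if_neg h, if_neg h]
      ring
  · by_cases h : i = j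
    · subst h
      rw [if_pos rfl, if_pos rfl, Real.sqrt_inv]
      have := hq i
      field_simp
    · rw [if_neg h, if_neg h]
      ring

/-- The mean is natural. -/
theorem IsMean.comap {V : Type*} [AddCommGroup V] [Module ℝ V] {r : ℕ}
    {A B X : LinearMap.BilinForm ℝ W} (h : IsMean r A B X) (L : V ≃ₗ[ℝ] W) :
    IsMean r (A.compl₁₂ (L : V →ₗ[ℝ] W) (L : V →ₗ[ℝ] W)) (B.compl₁₂ (L : V →ₗ[ℝ] W) (L : V →ₗ[ℝ] W))
      (X.compl₁₂ (L : V →ₗ[ℝ] W) (L : V →ₗ[ℝ] W)) := by
  obtain ⟨e, b, hb, hA, hB, hX⟩ := h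
  refine ⟨e.map L.symm, b, hb, fun i j => ?_, fun i j => ?_, fun i j => ?_⟩
  · simp [hA]
  · simp [hB]
  · simp [hX]

/-- The quadratic relation between a form and its square root with respect to `B`. -/
lemma mean_sq {r : ℕ} {A B X : LinearMap.BilinForm ℝ W} (h : IsMean r B A X)
    {e : Basis (Fin r) ℝ W} (he : ∀ i j, B (e i) (e j) = if i = j then 1 else 0) (v w : W) :
    A v w = ∑ l, X v (e l) * X w (e l) := by
  obtain ⟨e', b, hb, hB, hA, hX⟩ := h
  have hs : ∀ v w, B v w = B w v := (PD_of_diag hB hB fun _ => one_pos).1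
  have hXv : ∀ u l, X u (e l) = ∑ i, √(b i) * B u (e' i) * B (e l) (e' i) := fun u l =>
    diag_apply hB hX u (e l)
  have hAv : A v w = ∑ i, b i * B v (e' i) * B w (e' i) := diag_apply hB hA v w
  have hort : ∀ i j, ∑ l, B (e l) (e' i) * B (e l) (e' j) = if i = j then 1 else 0 := by
    intro i j
    rw [← hB i j]
    conv_rhs => rw [expand he (e' i)]
    simp only [map_sum, map_smul, LinearMap.sum_apply, LinearMap.smul_apply, smul_eq_mul]
    exact Finset.sum_congr rfl fun l _ => by rw [hs (e l) (e' i)]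
  calc A v w = ∑ i, b i * B v (e' i) * B w (e' i) := hAv
    _ = ∑ i, ∑ j, (√(b i) * B v (e' i)) * (√(b j) * B w (e' j)) *
          (if i = j then 1 else 0) := by
        refine Finset.sum_congr rfl fun i _ => ?_
        simp only [mul_ite, mul_one, mul_zero, Finset.sum_ite_eq, Finset.mem_univ, if_true]
        have := Real.mul_self_sqrt (hb i).le
        calc b i * B v (e' i) * B w (e' i) = (√(b i) * √(b i)) * B v (e' i) * B w (e' i) := by rw [this]
          _ = _ := by ring
    _ = ∑ i, ∑ j, ∑ l, (√(b i) * B v (e' i) * B (e l) (e' i)) *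
          (√(b j) * B w (e' j) * B (e l) (e' j)) := by
        refine Finset.sum_congr rfl fun i _ => Finset.sum_congr rfl fun j _ => ?_
        rw [← hort i j, Finset.mul_sum]
        exact Finset.sum_congr rfl fun l _ => by ring
    _ = ∑ l, X v (e l) * X w (e l) := by
        simp only [hXv, Finset.sum_mul_sum]
        rw [show (∑ i, ∑ j, ∑ l, (√(b i) * B v (e' i) * B (e l) (e' i)) *
          (√(b j) * B w (e' j) * B (e l) (e' j))) = ∑ i, ∑ l, ∑ j,
          (√(b i) * B v (e' i) * B (e l) (e' i)) * (√(b j) * B w (e' j) * B (e l) (e' j)) from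
          Finset.sum_congr rfl fun i _ => Finset.sum_comm]
        exact Finset.sum_comm

/-- Expansion of the Gram determinant. -/
lemma gram_diag {r k : ℕ} {A X : LinearMap.BilinForm ℝ W} {e : Basis (Fin r) ℝ W} {s : Fin r → ℝ}
    (hA : ∀ i j, A (e i) (e j) = if i = j then 1 else 0)
    (hX : ∀ i j, X (e i) (e j) = if i = j then s i else 0) (w : Fin k → W) :
    gram X w = (k.factorial : ℝ)⁻¹ * ∑ a : Fin k → Fin r, (∏ j, s (a j)) *
      (H801R3.SB.Vm (fun i j => A (w j) (e i)) a).det ^ 2 := by
  rw [← H801R3.SB.det_Qs]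
  unfold gram H801R3.SB.Qs
  congr 1
  ext i j
  simp only [Matrix.of_apply]
  rw [diag_apply hA hX]

/-- The Gram determinant of a linearly independent frame is positive. -/
lemma gram_pos {k : ℕ} {A : LinearMap.BilinForm ℝ W} (hA : PD A) {w : Fin k → W}
    (hw : LinearIndependent ℝ w) : 0 < gram A w := by
  unfold gram
  apply Matrix.PosDef.det_pos
  refine Matrix.PosDef.of_dotProduct_mulVec_pos ?_ fun x hx => ?_
  · ext i j
    simp [hA.1 (w i) (w j)]
  · have h1 : star x ⬝ᵥ (Matrix.of fun i j => A (w i) (w j)).mulVec x =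
        A (∑ i, x i • w i) (∑ i, x i • w i) := by
      simp only [dotProduct, Matrix.mulVec, Matrix.of_apply, star_trivial, map_sum, map_smul,
        LinearMap.sum_apply, LinearMap.smul_apply, smul_eq_mul, Finset.mul_sum, Finset.sum_mul]
      rw [Finset.sum_comm]
      exact Finset.sum_congr rfl fun i _ => Finset.sum_congr rfl fun j _ => by ring
    rw [h1]
    apply hA.2
    intro h
    apply hx
    have := Fintype.linearIndependent_iff.1 hw x h
    ext i
    simpa using this i

lemma gram_nonneg [FiniteDimensional ℝ W] {k : ℕ} {A : LinearMap.BilinForm ℝ W} (hA : PD A)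
    (w : Fin k → W) : 0 ≤ gram A w := by
  obtain ⟨e, q, h1, -⟩ := exists_simul rfl hA hA.1
  rw [gram_diag h1 h1]
  simp only [Finset.prod_const_one, one_mul]
  have := Finset.sum_nonneg fun (a : Fin k → Fin (finrank ℝ W)) (_ : a ∈ Finset.univ) =>
    sq_nonneg (H801R3.SB.Vm (fun i j => A (w j) (e i)) a).det
  positivity

/-- The Gram determinant is monotone. -/
lemma gram_mono [FiniteDimensional ℝ W] {k : ℕ} {A B : LinearMap.BilinForm ℝ W} (hA : PD A)
    (hB : ∀ v w, B v w = B w v) (h : ∀ v, A v v ≤ B v v) (w : Fin k → W) :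
    gram A w ≤ gram B w := by
  obtain ⟨e, q, h1, h2⟩ := exists_simul rfl hA hB
  have hq : ∀ i, 1 ≤ q i := fun i => by
    have := h (e i)
    rwa [h1, h2, if_pos rfl, if_pos rfl] at this
  rw [gram_diag h1 h1, gram_diag h1 h2]
  simp only [Finset.prod_const_one, one_mul]
  refine mul_le_mul_of_nonneg_left (Finset.sum_le_sum fun a _ => ?_) (by positivity)
  have h3 : (1 : ℝ) ≤ ∏ j, q (a j) := by
    have := Finset.prod_le_prod (s := Finset.univ) (f := fun _ : Fin k => (1 : ℝ))
      (g := fun j => q (a j)) (fun _ _ => zero_le_one) fun j _ => hq (a j)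
    simpa using this
  nlinarith [sq_nonneg (H801R3.SB.Vm (fun i j => A (w j) (e i)) a).det]

lemma gram_smul {k : ℕ} (c : ℝ) (A : LinearMap.BilinForm ℝ W) (w : Fin k → W) :
    gram (c • A) w = c ^ k * gram A w := by
  unfold gram
  have : (Matrix.of fun i j => (c • A) (w i) (w j)) = c • Matrix.of fun i j => A (w i) (w j) := by
    ext i j
    simp
  rw [this, Matrix.det_smul, Fintype.card_fin]

lemma gram_comap {V : Type*} [AddCommGroup V] [Module ℝ V] {k : ℕ} (A : LinearMap.BilinForm ℝ W)
    (L : V →ₗ[ℝ] W) (w : Fin k → V) : gram (A.compl₁₂ L L) w = gram A (fun i => L (w i)) := rfl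

/-- **The key inequality.** If all `k`-volumes grow by the factor `c` from `A` to `C` in two steps,
then they grow by `√c` from the mean of `A`, `B` to the mean of `B`, `C` in one. -/
theorem key {r k : ℕ} [FiniteDimensional ℝ W] (hr : finrank ℝ W = r)
    {A B C X Y : LinearMap.BilinForm ℝ W} (hX : IsMean r A B X)
    (hY : IsMean r B C Y) (hC : PD C) {c : ℝ} (hc : 0 < c)
    (h : ∀ w : Fin k → W, c ^ 2 * gram A w ≤ gram C w) (w : Fin k → W) :
    c * gram X w ≤ gram Y w := by
  obtain ⟨e, t, hYe, hXe⟩ := exists_simul hr hY.pd hX.pd.1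
  have ht : ∀ i, 0 < t i := fun i => by
    have := hX.pd.2 (e i) (e.ne_zero i)
    rwa [hXe, if_pos rfl] at this
  have hXY : ∀ i u, X (e i) u = t i * Y (e i) u := by
    intro i u
    rw [diag_apply hYe hXe, Finset.sum_eq_single i]
    · rw [hYe, if_pos rfl, mul_one, hY.pd.1 u (e i)]
    · intro l _ hl
      rw [hYe, if_neg (Ne.symm hl)]
      ring
    · simp
  obtain ⟨e0, b0, -, hB0, -, -⟩ := id hY
  have hAC : ∀ i j, A (e i) (e j) = t i * t j * C (e i) (e j) := by
    intro i j
    rw [mean_sq hX.symm hB0, mean_sq hY hB0, Finset.mul_sum]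
    refine Finset.sum_congr rfl fun l _ => ?_
    rw [hXY, hXY]
    ring
  have hprod : ∀ a : Fin k → Fin r, Function.Injective a → c * ∏ j, t (a j) ≤ 1 := by
    intro a ha
    have h1 : gram A (fun j => e (a j)) = (∏ j, t (a j)) ^ 2 * gram C (fun j => e (a j)) := by
      unfold gram
      have e1 : (Matrix.of fun i j => A (e (a i)) (e (a j))) = Matrix.of fun i j => t (a i) *
          (Matrix.of fun i j => t (a j) * (Matrix.of fun i j => C (e (a i)) (e (a j))) i j) i j := by
        ext i j
        simp only [Matrix.of_apply, hAC]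
        ring
      rw [e1, Matrix.det_mul_column, Matrix.det_mul_row]
      ring
    have h2 : 0 < gram C (fun j => e (a j)) :=
      gram_pos hC (e.linearIndependent.comp a ha)
    have h3 := h fun j => e (a j)
    rw [h1] at h3
    have h4 : 0 < ∏ j, t (a j) := Finset.prod_pos fun j _ => ht _
    have h5 : (c * ∏ j, t (a j)) ^ 2 ≤ 1 := by
      by_contra hcon
      push Not at hcon
      nlinarith
    nlinarith [mul_pos hc h4]
  rw [gram_diag hYe hXe, gram_diag hYe hYe]
  simp only [Finset.prod_const_one, one_mul]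
  rw [← mul_assoc, mul_comm c, mul_assoc, Finset.mul_sum]
  refine mul_le_mul_of_nonneg_left (Finset.sum_le_sum fun a _ => ?_) (by positivity)
  by_cases ha : Function.Injective a
  · nlinarith [hprod a ha, sq_nonneg (H801R3.SB.Vm (fun i j => Y (w j) (e i)) a).det]
  · have h0 : (H801R3.SB.Vm (fun i j => Y (w j) (e i)) a).det = 0 := by
      unfold Function.Injective at ha
      push Not at ha
      obtain ⟨i, j, hij, hne⟩ := ha
      apply Matrix.det_zero_of_row_eq hne
      funext l
      simp [H801R3.SB.Vm, hij]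
    rw [h0]
    simp

end Pool.Agent.X214.AM
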