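import Pool.Agent.X214.AM.Smooth
import Pool.Agent.X214.AM.Defs

/-!
# Adapted metrics for sectionally volume expanding sets
-/

set_option autoImplicit false

open scoped Manifold ContDiff Topology Bundle
open Set Filter Bundle

namespace Pool.Agent.X214.AM

variable {E : Type} [NormedAddCommGroup E] [NormedSpace ℝ E] [FiniteDimensional ℝ E]
  {M : Type} [TopologicalSpace M] [ChartedSpace E M] [IsManifold 𝓘(ℝ, E) ∞ M]

lemma D_zero (f : M → M) (x : M) (v : TangentSpace 𝓘(ℝ, E) x) : D f 0 x v = v := by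
  unfold D
  rw [Function.iterate_zero, mfderiv_id]
  rfl

lemma contMDiff_iterate {f : M → M} (hf : ContMDiff 𝓘(ℝ, E) 𝓘(ℝ, E) 1 f) (n : ℕ) :
    ContMDiff 𝓘(ℝ, E) 𝓘(ℝ, E) 1 f^[n] := by
  induction n with
  | zero => exact contMDiff_id
  | succ n ih => exact ih.comp hf

lemma D_succ {f : M → M} (hf : ContMDiff 𝓘(ℝ, E) 𝓘(ℝ, E) 1 f) (n : ℕ) (x : M)
    (v : TangentSpace 𝓘(ℝ, E) x) :
    D f (n + 1) x v = D f n (f x) (mfderiv 𝓘(ℝ, E) 𝓘(ℝ, E) f x v) := by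
  unfold D
  have h : mfderiv 𝓘(ℝ, E) 𝓘(ℝ, E) (f^[n] ∘ f) x =
      (mfderiv 𝓘(ℝ, E) 𝓘(ℝ, E) f^[n] (f x)).comp (mfderiv 𝓘(ℝ, E) 𝓘(ℝ, E) f x) :=
    mfderiv_comp x ((contMDiff_iterate hf n).mdifferentiableAt (by norm_num))
      (hf.mdifferentiableAt (by norm_num))
  exact DFunLike.congr_fun h v

/-- The tangent map as a map of the tangent bundle. -/
noncomputable def TT (f : M → M) (p : TangentBundle 𝓘(ℝ, E) M) : TangentBundle 𝓘(ℝ, E) M :=
  ⟨f p.1, mfderiv 𝓘(ℝ, E) 𝓘(ℝ, E) f p.1 p.2⟩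

lemma TT_iterate {f : M → M} (hf : ContMDiff 𝓘(ℝ, E) 𝓘(ℝ, E) 1 f) (n : ℕ) : ∀ (x : M)
    (v : TangentSpace 𝓘(ℝ, E) x), (TT f)^[n] ⟨x, v⟩ =
      (⟨f^[n] x, D f n x v⟩ : TangentBundle 𝓘(ℝ, E) M) := by
  induction n with
  | zero =>
    intro x v
    rw [D_zero]
    rfl
  | succ n ih =>
    intro x v
    rw [Function.iterate_succ_apply, D_succ hf]
    exact ih (f x) _

lemma continuous_TT {f : M → M} (hf : ContMDiff 𝓘(ℝ, E) 𝓘(ℝ, E) 1 f) :
    Continuous (TT (E := E) f) := hf.continuous_tangentMap le_rfl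

lemma inner_congr (g : RMetric E M) {p q : M} {v w : TangentSpace 𝓘(ℝ, E) p}
    {v' w' : TangentSpace 𝓘(ℝ, E) q}
    (h1 : (⟨p, v⟩ : TangentBundle 𝓘(ℝ, E) M) = ⟨q, v'⟩)
    (h2 : (⟨p, w⟩ : TangentBundle 𝓘(ℝ, E) M) = ⟨q, w'⟩) :
    g.inner p v w = g.inner q v' w' := by
  rw [TotalSpace.mk.injEq] at h1 h2
  obtain ⟨h, h1⟩ := h1
  subst h
  rw [eq_of_heq h1, eq_of_heq h2.2]

variable {Λ : Set M} {F : ∀ x : M, Submodule ℝ (TangentSpace 𝓘(ℝ, E) x)}

/-- The bundle map over `Λ` given by the derivative. -/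
noncomputable def dmap {f : M → M} (hf : ContMDiff 𝓘(ℝ, E) 𝓘(ℝ, E) 1 f)
    (hΛ : ∀ x ∈ Λ, f x ∈ Λ)
    (hinj : ∀ x, Function.Injective (mfderiv 𝓘(ℝ, E) 𝓘(ℝ, E) f x).toLinearMap)
    (hF : ∀ x ∈ Λ, (F x).map (mfderiv 𝓘(ℝ, E) 𝓘(ℝ, E) f x).toLinearMap = F (f x)) :
    BMap Λ F where
  σ := fun x => ⟨f x, hΛ x x.2⟩
  L := fun x => (Submodule.equivMapOfInjective (mfderiv 𝓘(ℝ, E) 𝓘(ℝ, E) f x).toLinearMap
    (hinj x) (F x)).trans (LinearEquiv.ofEq _ _ (hF x x.2))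
  lim := fun u x v x0 v0 h => ((continuous_TT hf).tendsto _).comp h

variable {f : M → M} (hf : ContMDiff 𝓘(ℝ, E) 𝓘(ℝ, E) 1 f)
    (hΛ : ∀ x ∈ Λ, f x ∈ Λ)
    (hinj : ∀ x, Function.Injective (mfderiv 𝓘(ℝ, E) 𝓘(ℝ, E) f x).toLinearMap)
    (hF : ∀ x ∈ Λ, (F x).map (mfderiv 𝓘(ℝ, E) 𝓘(ℝ, E) f x).toLinearMap = F (f x))

lemma pw_eq (m : ℕ) : ∀ (x : Λ) (v : F x),
    (⟨((pw (dmap hf hΛ hinj hF) m).σ x : M),
      ((pw (dmap hf hΛ hinj hF) m).L x v : TangentSpace 𝓘(ℝ, E) _)⟩ : TangentBundle 𝓘(ℝ, E) M) =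
      (TT f)^[2 ^ m] (⟨(x : M), (v : TangentSpace 𝓘(ℝ, E) (x : M))⟩ : TangentBundle 𝓘(ℝ, E) M) := by
  induction m with
  | zero =>
    intro x v
    rfl
  | succ m ih =>
    intro x v
    rw [pow_succ, mul_two, Function.iterate_add_apply, ← ih x v]
    exact ih ((pw (dmap hf hΛ hinj hF) m).σ x) ((pw (dmap hf hΛ hinj hF) m).L x v)

lemma gram_pw (g : RMetric E M) (m : ℕ) (x : Λ) {k : ℕ} (w : Fin k → F x) :
    gram (pull (pw (dmap hf hΛ hinj hF) m) (res Λ F g) x) w =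
      (Matrix.of fun i j => g.inner (f^[2 ^ m] (x : M)) (D f (2 ^ m) (x : M) (w i))
        (D f (2 ^ m) (x : M) (w j))).det := by
  unfold gram
  congr 1
  ext i j
  simp only [Matrix.of_apply]
  rw [pull_apply, res_apply]
  refine inner_congr g ?_ ?_
  · rw [pw_eq hf hΛ hinj hF m x (w i), TT_iterate hf]
  · rw [pw_eq hf hΛ hinj hF m x (w j), TT_iterate hf]

lemma gram_res (g : RMetric E M) (x : Λ) {k : ℕ} (w : Fin k → F x) :
    gram (res Λ F g x) w = (Matrix.of fun i j => g.inner (x : M) (w i) (w j)).det := rfl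

lemma vol_sq (g : RMetric E M) (x : M) {k : ℕ} (v : Fin k → TangentSpace 𝓘(ℝ, E) x) :
    vol g x v ^ 2 = (Matrix.of fun i j => g.inner x (v i) (v j)).det := by
  unfold vol
  apply Real.sq_sqrt
  have h := gram_nonneg (A := res Set.univ (fun x : M => ⊤) g ⟨x, mem_univ x⟩)
    (res_pd g _) (fun i => ⟨v i, trivial⟩)
  exact h

lemma exists_eps {b c : ℝ} (hbc : b < c) (k : ℕ) :
    ∃ ε : ℝ, 0 < ε ∧ ε < 1 ∧ (1 + ε) ^ k * Real.exp b ≤ Real.exp c * (1 - ε) ^ k := by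
  have h1 : Tendsto (fun ε : ℝ => Real.exp c * (1 - ε) ^ k - (1 + ε) ^ k * Real.exp b)
      (𝓝 0) (𝓝 (Real.exp c * (1 - 0) ^ k - (1 + 0) ^ k * Real.exp b)) := by
    apply Continuous.tendsto (f := fun ε : ℝ =>
      Real.exp c * (1 - ε) ^ k - (1 + ε) ^ k * Real.exp b)
    fun_prop
  have h2 : 0 < Real.exp c * (1 - 0) ^ k - (1 + 0) ^ k * Real.exp b := by
    have := Real.exp_lt_exp.2 hbc
    simp only [sub_zero, add_zero, one_pow, mul_one, one_mul]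
    linarith
  have h3 := h1.eventually (lt_mem_nhds h2)
  have h4 : ∀ᶠ ε : ℝ in 𝓝[>] 0, 0 < Real.exp c * (1 - ε) ^ k - (1 + ε) ^ k * Real.exp b :=
    h3.filter_mono nhdsWithin_le_nhds
  have h5 : ∀ᶠ ε : ℝ in 𝓝[>] 0, ε < 1 :=
    (show ∀ᶠ ε : ℝ in 𝓝 0, ε < 1 from Iio_mem_nhds zero_lt_one).filter_mono nhdsWithin_le_nhds
  obtain ⟨ε, ⟨h6, h7⟩, h8⟩ := ((h4.and h5).and self_mem_nhdsWithin).exists
  exact ⟨ε, h8, h7, by linarith⟩

include hf hinj in
/-- **Adapted metrics.** -/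
theorem adapted [T2Space M] [SigmaCompactSpace M] (hcomp : IsCompact Λ) (hΛ : ∀ x ∈ Λ, f x ∈ Λ)
    (hF : ∀ x ∈ Λ, (F x).map (mfderiv 𝓘(ℝ, E) 𝓘(ℝ, E) f x).toLinearMap = F (f x))
    {r : ℕ} (hsub : IsSubbundle Λ F r) (g : RMetric E M) (k : ℕ) {C a b : ℝ} (hC : 0 < C)
    (hab : b < a) (hvol : VolExp g f Λ F k C a) :
    ∃ g' : RMetric E M, VolExp g' f Λ F k 1 b := by
  set φ : BMap Λ F := dmap hf hΛ hinj hF with hφ
  have hcl : IsClosed (tot Λ F) := hsub.closed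
  have hr : ∀ x : Λ, Module.finrank ℝ (F x) = r := fun x => hsub.rank x x.2
  set c : ℝ := a + b with hc
  -- a large power of two
  obtain ⟨m, hm⟩ : ∃ m : ℕ, 1 ≤ C ^ 2 * Real.exp ((a - b) * (2 ^ m : ℕ)) := by
    have h1 : Tendsto (fun m : ℕ => C ^ 2 * Real.exp ((a - b) * (2 ^ m : ℕ))) atTop atTop := by
      apply Tendsto.const_mul_atTop (by positivity)
      apply Real.tendsto_exp_atTop.comp
      apply Tendsto.const_mul_atTop (by linarith)
      exact tendsto_natCast_atTop_atTop.comp (tendsto_pow_atTop_atTop_of_one_lt (by norm_num))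
    exact (h1.eventually_ge_atTop 1).exists
  have hgrow : ∀ (x : Λ) (w : Fin k → F x),
      Real.exp c ^ (2 ^ m) * gram (res Λ F g x) w ≤ gram (pull (pw φ m) (res Λ F g) x) w := by
    intro x w
    rw [hφ, gram_pw, gram_res, ← vol_sq, ← vol_sq]
    have h1 := hvol x x.2 (2 ^ m) Nat.one_le_two_pow (fun i => w i) fun i => (w i).2
    have h2 : 0 ≤ vol g (x : M) (fun i => (w i : TangentSpace 𝓘(ℝ, E) (x : M))) :=
      Real.sqrt_nonneg _
    have h3 : 0 ≤ C * Real.exp (a * (2 ^ m : ℕ)) *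
        vol g (x : M) (fun i => (w i : TangentSpace 𝓘(ℝ, E) (x : M))) := by positivity
    have h4 := pow_le_pow_left₀ h3 h1 2
    refine le_trans ?_ h4
    rw [mul_pow, mul_pow]
    refine mul_le_mul_of_nonneg_right ?_ (sq_nonneg _)
    rw [← Real.exp_nat_mul, mul_comm _ c]
    calc Real.exp (c * (2 ^ m : ℕ)) ≤ (C ^ 2 * Real.exp ((a - b) * (2 ^ m : ℕ))) *
          Real.exp (c * (2 ^ m : ℕ)) := le_mul_of_one_le_left (Real.exp_pos _).le hm
      _ = C ^ 2 * (Real.exp ((a - b) * (2 ^ m : ℕ)) * Real.exp (c * (2 ^ m : ℕ))) := by ring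
      _ = C ^ 2 * Real.exp (a * (2 ^ m : ℕ)) ^ 2 := by
          rw [← Real.exp_add, ← Real.exp_nat_mul]
          congr 2
          rw [hc]
          push_cast
          ring
  obtain ⟨A, hA, hAc, hA1⟩ := halve g hcl hr φ (Real.exp_pos c) m (res Λ F g) (res_pd g)
    (res_cts g) hgrow
  obtain ⟨ε, hε0, hε1, hε⟩ := exists_eps (show 2 * b < c by rw [hc]; linarith) k
  obtain ⟨g', hg'⟩ := exists_smooth g hcomp.isClosed hcl hA hAc hε0
  have hlow : ∀ (x : Λ) (w : Fin k → F x), (1 - ε) ^ k * gram (A x) w ≤ gram (res Λ F g' x) w := by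
    intro x w
    rw [← gram_smul]
    refine gram_mono ⟨fun v w => ?_, fun v hv => ?_⟩ (res_pd g' x).1 (fun v => ?_) w
    · simp only [LinearMap.smul_apply, (hA x).1 v w]
    · have := (hA x).2 v hv
      have h1 : 0 < 1 - ε := by linarith
      simpa using mul_pos h1 this
    · simpa using (hg' x v).1
  have hup : ∀ (x : Λ) (w : Fin k → F x), gram (res Λ F g' x) w ≤ (1 + ε) ^ k * gram (A x) w := by
    intro x w
    rw [← gram_smul]
    refine gram_mono (res_pd g' x) (fun v w => ?_) (fun v => ?_) w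
    · simp only [LinearMap.smul_apply, (hA x).1 v w]
    · simpa using (hg' x v).2
  have hone : ∀ (x : Λ) (w : Fin k → F x),
      Real.exp (2 * b) * gram (res Λ F g' x) w ≤ gram (pull φ (res Λ F g') x) w := by
    intro x w
    have h1 : (1 - ε) ^ k * gram (pull φ A x) w ≤ gram (pull φ (res Λ F g') x) w :=
      hlow (φ.σ x) fun i => φ.L x (w i)
    have h2 := hA1 x w
    have h3 := hup x w
    have h4 : 0 ≤ gram (A x) w := gram_nonneg (hA x) w
    have h5 : (0 : ℝ) ≤ (1 - ε) ^ k := pow_nonneg (by linarith) k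
    calc Real.exp (2 * b) * gram (res Λ F g' x) w
        ≤ Real.exp (2 * b) * ((1 + ε) ^ k * gram (A x) w) := by gcongr
      _ = ((1 + ε) ^ k * Real.exp (2 * b)) * gram (A x) w := by ring
      _ ≤ (Real.exp c * (1 - ε) ^ k) * gram (A x) w := by gcongr
      _ = (1 - ε) ^ k * (Real.exp c * gram (A x) w) := by ring
      _ ≤ (1 - ε) ^ k * gram (pull φ A x) w := by gcongr
      _ ≤ _ := h1
  have hmany : ∀ (n : ℕ) (x : M) (hx : x ∈ Λ) (v : Fin k → TangentSpace 𝓘(ℝ, E) x),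
      (∀ i, v i ∈ F x) → Real.exp (2 * b) ^ n * vol g' x v ^ 2 ≤
        vol g' (f^[n] x) (fun i => D f n x (v i)) ^ 2 := by
    intro n
    induction n with
    | zero =>
      intro x hx v hv
      simp only [D_zero]
      rw [pow_zero, one_mul]
      rfl
    | succ n ih =>
      intro x hx v hv
      have h1 := ih (f x) (hΛ x hx) (fun i => mfderiv 𝓘(ℝ, E) 𝓘(ℝ, E) f x (v i)) fun i => by
        rw [← hF x hx]
        exact Submodule.mem_map_of_mem (hv i)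
      have h2 := hone ⟨x, hx⟩ fun i => ⟨v i, hv i⟩
      have h3 : Real.exp (2 * b) * vol g' x v ^ 2 ≤
          vol g' (f x) (fun i => mfderiv 𝓘(ℝ, E) 𝓘(ℝ, E) f x (v i)) ^ 2 := by
        rw [vol_sq, vol_sq]
        exact h2
      simp only [D_succ hf]
      refine le_trans ?_ h1
      rw [pow_succ, mul_assoc]
      exact mul_le_mul_of_nonneg_left h3 (by positivity)
  refine ⟨g', fun x hx n _ v hv => ?_⟩
  have h1 := hmany n x hx v hv
  rw [one_mul]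
  refine le_of_sq_le_sq ?_ (Real.sqrt_nonneg _)
  refine le_trans (le_of_eq ?_) h1
  rw [mul_pow, ← Real.exp_nat_mul, ← Real.exp_nat_mul]
  congr 2
  push_cast
  ring

end Pool.Agent.X214.AM
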