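import Pool.Agent.Y331.PH.Metric
import Pool.Agent.X214.AM.Lin

/-!
# Convergence of tangent vectors
-/

set_option autoImplicit false

open scoped Manifold ContDiff Topology Bundle
open Set Filter Bundle

namespace Pool.Agent.X214.AM

variable {E : Type} [NormedAddCommGroup E] [NormedSpace ℝ E]
  {M : Type} [TopologicalSpace M] [ChartedSpace E M] [IsManifold 𝓘(ℝ, E) ∞ M]

/-- The tangent vectors `v i` at `x i` converge to the tangent vector `v0` at `x0`. -/
def Lim {ι : Type} (u : Filter ι) (x : ι → M) (v : ∀ i, TangentSpace 𝓘(ℝ, E) (x i)) (x0 : M)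
    (v0 : TangentSpace 𝓘(ℝ, E) x0) : Prop :=
  Tendsto (fun i => (⟨x i, v i⟩ : TangentBundle 𝓘(ℝ, E) M)) u (𝓝 ⟨x0, v0⟩)

/-- The coordinate in the trivialisation at `x0`. -/
noncomputable def crd (x0 x : M) (v : TangentSpace 𝓘(ℝ, E) x) : E :=
  (trivializationAt E (TangentSpace 𝓘(ℝ, E) : M → Type) x0).continuousLinearMapAt ℝ x v

lemma crd_eq {x0 x : M} (hx : x ∈ (trivializationAt E (TangentSpace 𝓘(ℝ, E) : M → Type) x0).baseSet)
    (v : TangentSpace 𝓘(ℝ, E) x) :
    crd x0 x v = ((trivializationAt E (TangentSpace 𝓘(ℝ, E) : M → Type) x0) ⟨x, v⟩).2 := by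
  unfold crd
  rw [Bundle.Trivialization.continuousLinearMapAt_apply, Bundle.Trivialization.linearMapAt_apply,
    if_pos hx]

lemma lim_iff {ι : Type} {u : Filter ι} {x : ι → M} {v : ∀ i, TangentSpace 𝓘(ℝ, E) (x i)} {x0 : M}
    {v0 : TangentSpace 𝓘(ℝ, E) x0} :
    Lim u x v x0 v0 ↔ Tendsto x u (𝓝 x0) ∧
      Tendsto (fun i => crd x0 (x i) (v i)) u (𝓝 (crd x0 x0 v0)) := by
  have hb : x0 ∈ (trivializationAt E (TangentSpace 𝓘(ℝ, E) : M → Type) x0).baseSet :=
    FiberBundle.mem_baseSet_trivializationAt' x0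
  have hs : (⟨x0, v0⟩ : TangentBundle 𝓘(ℝ, E) M) ∈
      (trivializationAt E (TangentSpace 𝓘(ℝ, E) : M → Type) x0).source := by
    rw [Bundle.Trivialization.mem_source]
    exact hb
  unfold Lim
  rw [(trivializationAt E (TangentSpace 𝓘(ℝ, E) : M → Type) x0).tendsto_nhds_iff hs]
  rw [crd_eq hb]
  constructor
  · rintro ⟨h1, h2⟩
    have h1' : Tendsto x u (𝓝 x0) := h1
    refine ⟨h1', h2.congr' ?_⟩
    filter_upwards [h1'.eventually ((trivializationAt E
      (TangentSpace 𝓘(ℝ, E) : M → Type) x0).open_baseSet.mem_nhds hb)] with i hi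
    exact (crd_eq hi _).symm
  · rintro ⟨h1, h2⟩
    refine ⟨h1, h2.congr' ?_⟩
    filter_upwards [h1.eventually ((trivializationAt E
      (TangentSpace 𝓘(ℝ, E) : M → Type) x0).open_baseSet.mem_nhds hb)] with i hi
    exact crd_eq hi _

/-- The scalar product of convergent tangent vectors converges. -/
lemma tendsto_inner (g : ContMDiffRiemannianMetric 𝓘(ℝ, E) ∞ E (TangentSpace 𝓘(ℝ, E) : M → Type))
    {ι : Type} {u : Filter ι} {x : ι → M} {v w : ∀ i, TangentSpace 𝓘(ℝ, E) (x i)} {x0 : M}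
    {v0 w0 : TangentSpace 𝓘(ℝ, E) x0} (hv : Lim u x v x0 v0) (hw : Lim u x w x0 w0) :
    Tendsto (fun i => g.inner (x i) (v i) (w i)) u (𝓝 (g.inner x0 v0 w0)) := by
  set e := trivializationAt E (TangentSpace 𝓘(ℝ, E) : M → Type) x0 with he
  have hb : x0 ∈ e.baseSet := FiberBundle.mem_baseSet_trivializationAt' x0
  let g' : M → E →L[ℝ] E →L[ℝ] ℝ := fun y =>
    ContinuousLinearMap.inCoordinates E (TangentSpace 𝓘(ℝ, E) : M → Type) (E →L[ℝ] ℝ)
      (fun x => TangentSpace 𝓘(ℝ, E) x →L[ℝ] ℝ) x0 y x0 y (g.inner y)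
  have hg' : ContinuousAt g' x0 := by
    have W := g.contMDiff.continuous.continuousAt (x := x0)
    simp only [continuousAt_hom_bundle] at W
    exact W.2
  have key : ∀ y ∈ e.baseSet, ∀ a b : TangentSpace 𝓘(ℝ, E) y,
      g.inner y a b = g' y (crd x0 y a) (crd x0 y b) := by
    intro y hy a b
    simp only [g']
    rw [inCoordinates_apply_eq₂ hy hy (Set.mem_univ _)]
    have A : ∀ a : TangentSpace 𝓘(ℝ, E) y, e.symm y (crd x0 y a) = a := by
      intro a
      have := e.symmL_continuousLinearMapAt (R := ℝ) hy a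
      rwa [Bundle.Trivialization.symmL_apply _ hy] at this
    rw [A, A]
    simp
  rw [lim_iff] at hv hw
  have h1 : Tendsto (fun i => g' (x i)) u (𝓝 (g' x0)) := hg'.tendsto.comp hv.1
  have h2 := (isBoundedBilinearMap_apply (𝕜 := ℝ) (E := E) (F := ℝ)).continuous.tendsto
    (g' x0 (crd x0 x0 v0), crd x0 x0 w0) |>.comp
    (((isBoundedBilinearMap_apply (𝕜 := ℝ) (E := E) (F := E →L[ℝ] ℝ)).continuous.tendsto
      (g' x0, crd x0 x0 v0) |>.comp (h1.prodMk_nhds hv.2)).prodMk_nhds hw.2)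
  rw [key x0 hb]
  refine h2.congr' ?_
  filter_upwards [hv.1.eventually (e.open_baseSet.mem_nhds hb)] with i hi
  exact (key _ hi _ _).symm

/-- Bounded sequences of tangent vectors converge along an ultrafilter. -/
lemma exists_lim [FiniteDimensional ℝ E]
    (g : ContMDiffRiemannianMetric 𝓘(ℝ, E) ∞ E (TangentSpace 𝓘(ℝ, E) : M → Type))
    {ι : Type} {u : Ultrafilter ι} {x : ι → M} {v : ∀ i, TangentSpace 𝓘(ℝ, E) (x i)} {x0 : M}
    (hx : Tendsto x u (𝓝 x0)) {R : ℝ} (hR : ∀ᶠ i in (u : Filter ι), g.inner (x i) (v i) (v i) ≤ R) :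
    ∃ v0 : TangentSpace 𝓘(ℝ, E) x0, Lim (u : Filter ι) x v x0 v0 := by
  have : ProperSpace E := FiniteDimensional.proper ℝ E
  set e := trivializationAt E (TangentSpace 𝓘(ℝ, E) : M → Type) x0 with he
  have hb : x0 ∈ e.baseSet := FiberBundle.mem_baseSet_trivializationAt' x0
  obtain ⟨C, hC⟩ : ∃ C : ℝ, ∀ᶠ i in (u : Filter ι), ‖crd x0 (x i) (v i)‖ ≤ C := by
    let _ : RiemannianBundle (fun x : M => TangentSpace 𝓘(ℝ, E) x) :=
      ⟨g.toContinuousRiemannianMetric.toRiemannianMetric⟩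
    obtain ⟨C, hC0, hC⟩ := eventually_norm_trivializationAt_lt E
      (TangentSpace 𝓘(ℝ, E) : M → Type) x0
    refine ⟨C * √R, ?_⟩
    filter_upwards [hx.eventually hC, hR] with i hi hi2
    have h1 : ‖v i‖ ≤ √R := by
      rw [norm_eq_sqrt_real_inner]
      exact Real.sqrt_le_sqrt hi2
    calc ‖crd x0 (x i) (v i)‖ ≤ ‖e.continuousLinearMapAt ℝ (x i)‖ * ‖v i‖ :=
          ContinuousLinearMap.le_opNorm _ _
      _ ≤ C * √R := by gcongr
  have hm : Metric.closedBall (0 : E) C ∈ Ultrafilter.map (fun i => crd x0 (x i) (v i)) u := by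
    rw [Ultrafilter.mem_map]
    filter_upwards [hC] with i hi
    simpa using hi
  obtain ⟨a, -, ha⟩ := (isCompact_closedBall (0 : E) C).ultrafilter_le_nhds'
    (Ultrafilter.map (fun i => crd x0 (x i) (v i)) u) hm
  refine ⟨e.symmL ℝ x0 a, ?_⟩
  rw [lim_iff]
  refine ⟨hx, ?_⟩
  have h1 : crd x0 x0 (e.symmL ℝ x0 a) = a := e.continuousLinearMapAt_symmL (R := ℝ) hb a
  rw [h1]
  exact ha

end Pool.Agent.X214.AM
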